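import Mathlib

-- part Pool.Agent.Lib.MP_07717f_lc.Action
section

/-
A free group on three letters t, a, b acting on ZMod m x R x R:
t shifts the first coordinate, a translates the second coordinate over the fibre 0,
b shears the third coordinate by lam(k) times the second.
-/

set_option autoImplicit false

namespace Pool.Agent.Lib.MP_07717f_lc

abbrev Pt (m : ℕ) (R : Type) : Type := ZMod m × R × R

section action

variable {m : ℕ} {R : Type} [CommRing R]

def genT : Equiv.Perm (Pt m R) where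
  toFun z := (z.1 + 1, z.2.1, z.2.2)
  invFun z := (z.1 - 1, z.2.1, z.2.2)
  left_inv z := by simp
  right_inv z := by simp

def genA : Equiv.Perm (Pt m R) where
  toFun z := (z.1, z.2.1 + (if z.1 = 0 then 1 else 0), z.2.2)
  invFun z := (z.1, z.2.1 - (if z.1 = 0 then 1 else 0), z.2.2)
  left_inv z := by simp
  right_inv z := by simp

def genB (lam : ZMod m → R) : Equiv.Perm (Pt m R) where
  toFun z := (z.1, z.2.1, z.2.2 + lam z.1 * z.2.1)
  invFun z := (z.1, z.2.1, z.2.2 - lam z.1 * z.2.1)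
  left_inv z := by simp
  right_inv z := by simp

def gens (lam : ZMod m → R) : Fin 3 → Equiv.Perm (Pt m R) := ![genT, genA, genB lam]

def rho (lam : ZMod m → R) : FreeGroup (Fin 3) →* Equiv.Perm (Pt m R) :=
  FreeGroup.lift (gens lam)

def step (lam : ZMod m → R) (l : Fin 3 × Bool) (z : Pt m R) : Pt m R :=
  (cond l.2 (gens lam l.1) (gens lam l.1)⁻¹) z

theorem rho_mk (lam : ZMod m → R) (w : List (Fin 3 × Bool)) (z : Pt m R) :
    rho lam (FreeGroup.mk w) z = w.foldr (step lam) z := by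
  unfold rho
  rw [FreeGroup.lift_mk]
  induction w with
  | nil => simp
  | cons l w ih => simp only [List.map_cons, List.prod_cons, Equiv.Perm.mul_apply, ih,
      List.foldr_cons, step]

theorem step_0t (lam : ZMod m → R) (z : Pt m R) :
    step lam (0, true) z = (z.1 + 1, z.2.1, z.2.2) := rfl
theorem step_0f (lam : ZMod m → R) (z : Pt m R) :
    step lam (0, false) z = (z.1 - 1, z.2.1, z.2.2) := rfl
theorem step_1t (lam : ZMod m → R) (z : Pt m R) :
    step lam (1, true) z = (z.1, z.2.1 + (if z.1 = 0 then 1 else 0), z.2.2) := rfl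
theorem step_1f (lam : ZMod m → R) (z : Pt m R) :
    step lam (1, false) z = (z.1, z.2.1 - (if z.1 = 0 then 1 else 0), z.2.2) := rfl
theorem step_2t (lam : ZMod m → R) (z : Pt m R) :
    step lam (2, true) z = (z.1, z.2.1, z.2.2 + lam z.1 * z.2.1) := rfl
theorem step_2f (lam : ZMod m → R) (z : Pt m R) :
    step lam (2, false) z = (z.1, z.2.1, z.2.2 - lam z.1 * z.2.1) := rfl

theorem letter_cases (l : Fin 3 × Bool) :
    l = (0, true) ∨ l = (0, false) ∨ l = (1, true) ∨ l = (1, false) ∨ l = (2, true) ∨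
      l = (2, false) := by
  revert l; decide

/-- change of coefficients -/
def mapPt {R' : Type} [CommRing R'] (φ : R →+* R') (z : Pt m R) : Pt m R' :=
  (z.1, φ z.2.1, φ z.2.2)

theorem mapPt_step {R' : Type} [CommRing R'] (φ : R →+* R') (lam : ZMod m → R)
    (l : Fin 3 × Bool) (z : Pt m R) :
    mapPt φ (step lam l z) = step (fun k => φ (lam k)) l (mapPt φ z) := by
  rcases letter_cases l with h | h | h | h | h | h <;> subst h
  · simp [step_0t, mapPt]
  · simp [step_0f, mapPt]
  · by_cases h : z.1 = 0 <;> simp [step_1t, mapPt, h]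
  · by_cases h : z.1 = 0 <;> simp [step_1f, mapPt, h]
  · simp [step_2t, mapPt]
  · simp [step_2f, mapPt]

theorem mapPt_rho {R' : Type} [CommRing R'] (φ : R →+* R') (lam : ZMod m → R)
    (g : FreeGroup (Fin 3)) (z : Pt m R) :
    mapPt φ (rho lam g z) = rho (fun k => φ (lam k)) g (mapPt φ z) := by
  obtain ⟨w, rfl⟩ : ∃ w, g = FreeGroup.mk w := ⟨g.toWord, (FreeGroup.mk_toWord).symm⟩
  rw [rho_mk, rho_mk]
  induction w with
  | nil => rfl
  | cons l w ih => simp only [List.foldr_cons, mapPt_step, ih]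

/-- the three generators -/
def tt : FreeGroup (Fin 3) := FreeGroup.of 0
def aa : FreeGroup (Fin 3) := FreeGroup.of 1
def bb : FreeGroup (Fin 3) := FreeGroup.of 2

/-- the commutator of a with the conjugate of b by the j-th power of t -/
def comm (j : ℕ) : FreeGroup (Fin 3) :=
  aa * ((tt⁻¹) ^ j * bb * tt ^ j) * aa⁻¹ * ((tt⁻¹) ^ j * bb⁻¹ * tt ^ j)

theorem rho_tt (lam : ZMod m → R) : rho lam tt = genT := by simp [rho, tt, gens]
theorem rho_aa (lam : ZMod m → R) : rho lam aa = genA := by simp [rho, aa, gens]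
theorem rho_bb (lam : ZMod m → R) : rho lam bb = genB lam := by simp [rho, bb, gens]

theorem genT_pow (j : ℕ) (z : Pt m R) :
    ((genT : Equiv.Perm (Pt m R)) ^ j) z = (z.1 + j, z.2.1, z.2.2) := by
  induction j with
  | zero => simp
  | succ j ih =>
    rw [pow_succ', Equiv.Perm.mul_apply, ih]
    simp [genT, add_assoc]

theorem genT_inv_pow (j : ℕ) (z : Pt m R) :
    ((genT : Equiv.Perm (Pt m R))⁻¹ ^ j) z = (z.1 - j, z.2.1, z.2.2) := by
  induction j with
  | zero => simp
  | succ j ih =>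
    rw [pow_succ', Equiv.Perm.mul_apply, ih]
    show ((z.1 - (j : ZMod m)) - 1, z.2.1, z.2.2) = _
    simp [sub_sub]

theorem genA_apply (z : Pt m R) :
    (genA : Equiv.Perm (Pt m R)) z = (z.1, z.2.1 + (if z.1 = 0 then 1 else 0), z.2.2) := rfl
theorem genA_inv_apply (z : Pt m R) :
    (genA : Equiv.Perm (Pt m R))⁻¹ z = (z.1, z.2.1 - (if z.1 = 0 then 1 else 0), z.2.2) := rfl
theorem genB_apply (lam : ZMod m → R) (z : Pt m R) :
    genB lam z = (z.1, z.2.1, z.2.2 + lam z.1 * z.2.1) := rfl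
theorem genB_inv_apply (lam : ZMod m → R) (z : Pt m R) :
    (genB lam)⁻¹ z = (z.1, z.2.1, z.2.2 - lam z.1 * z.2.1) := rfl

theorem rho_comm (lam : ZMod m → R) (j : ℕ) (z : Pt m R) :
    rho lam (comm j) z = (z.1, z.2.1, z.2.2 - (if z.1 = 0 then lam j else 0)) := by
  simp only [comm, map_mul, map_pow, map_inv, rho_tt, rho_aa, rho_bb, Equiv.Perm.mul_apply,
    genT_pow, genT_inv_pow, genA_apply, genA_inv_apply, genB_apply, genB_inv_apply,
    add_sub_cancel_right]
  by_cases h : z.1 = 0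
  · simp only [h, if_true, zero_add]
    refine Prod.ext rfl (Prod.ext ?_ ?_)
    · simp
    · simp only; ring
  · simp [h]

theorem rho_comm_pow (lam : ZMod m → R) (j n : ℕ) (z : Pt m R) :
    rho lam (comm j ^ n) z = (z.1, z.2.1, z.2.2 - n * (if z.1 = 0 then lam j else 0)) := by
  induction n with
  | zero => simp
  | succ n ih =>
    rw [pow_succ', map_mul, Equiv.Perm.mul_apply, ih, rho_comm]
    refine Prod.ext rfl (Prod.ext rfl ?_)
    simp only; push_cast; ring

end action

end Pool.Agent.Lib.MP_07717f_lc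
end

-- part Pool.Agent.Lib.MP_07717f_lc.Sim
section

/-
Parameters of the actions (read off from halting times) and a primitive recursive simulation
of the actions on tuples of natural numbers.
-/

set_option autoImplicit false

namespace Pool.Agent.Lib.MP_07717f_lc

open Nat.Partrec (Code)
open Nat.Partrec.Code

def pp (e : ℕ) : ℕ := 4 ^ e
def qq (e : ℕ) : ℕ := 2 * pp e
def md (e : ℕ) : ℕ := 4 * pp e

theorem pp_pos (e : ℕ) : 0 < pp e := by unfold pp; positivity

instance md_neZero (e : ℕ) : NeZero (md e) := ⟨by have := pp_pos e; unfold md; omega⟩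

/-- the program with number e has halted on input 0 within s steps -/
def att (e s : ℕ) : Bool := (evaln s (Denumerable.ofNat Code e) 0).isSome

theorem att_zero (e : ℕ) : att e 0 = false := by simp [att, evaln]

theorem att_mono {e s s' : ℕ} (h : s ≤ s') (ha : att e s = true) : att e s' = true := by
  unfold att at *
  obtain ⟨x, hx⟩ := Option.isSome_iff_exists.1 ha
  exact Option.isSome_iff_exists.2 ⟨x, evaln_mono h hx⟩

theorem att_iff (c : Code) : (∃ s, att (Encodable.encode c) s = true) ↔ (eval c 0).Dom := by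
  unfold att
  rw [Denumerable.ofNat_encode, Part.dom_iff_mem]
  constructor
  · rintro ⟨s, hs⟩
    obtain ⟨x, hx⟩ := Option.isSome_iff_exists.1 hs
    exact ⟨x, evaln_sound hx⟩
  · rintro ⟨x, hx⟩
    obtain ⟨k, hk⟩ := evaln_complete.1 hx
    exact ⟨k, Option.isSome_iff_exists.2 ⟨x, hk⟩⟩

open Classical in
noncomputable def alpha (e : ℕ) : ℕ := if h : ∃ s, att e s = true then Nat.find h else 1

open Classical in
noncomputable def beta (e : ℕ) : ℕ := if ∃ s, att e s = true then 1 else 0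

noncomputable def lam (e : ℕ) (k : ZMod (md e)) : ℤ :=
  (if k = (pp e : ZMod (md e)) then (alpha e : ℤ) else 0) +
    (if k = (qq e : ZMod (md e)) then (beta e : ℤ) else 0)

theorem cast_eq_iff (e j i : ℕ) (hi : i < md e) :
    ((j : ZMod (md e)) = (i : ZMod (md e))) ↔ j % md e = i := by
  rw [ZMod.natCast_eq_natCast_iff', Nat.mod_eq_of_lt hi]

theorem pp_lt (e : ℕ) : pp e < md e := by have := pp_pos e; unfold md; omega
theorem qq_lt (e : ℕ) : qq e < md e := by have := pp_pos e; unfold md qq; omega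

theorem lam_nat (e j : ℕ) : lam e (j : ZMod (md e)) =
    (if j % md e = pp e then (alpha e : ℤ) else 0) +
      (if j % md e = qq e then (beta e : ℤ) else 0) := by
  unfold lam
  simp only [cast_eq_iff e j _ (pp_lt e), cast_eq_iff e j _ (qq_lt e)]

theorem pp_cases {e e' : ℕ} (h : e' ≠ e) : md e ∣ pp e' ∨ md e' ∣ pp e := by
  rcases lt_or_gt_of_ne h with h | h
  · right
    unfold md pp
    rw [← pow_succ']
    exact pow_dvd_pow 4 h
  · left
    unfold md pp
    rw [← pow_succ']
    exact pow_dvd_pow 4 h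

theorem lam_pp_self (e : ℕ) : lam e (pp e : ZMod (md e)) = alpha e := by
  rw [lam_nat, Nat.mod_eq_of_lt (pp_lt e)]
  have := pp_pos e
  have h : ¬ pp e = qq e := by unfold qq; omega
  simp [h]

theorem lam_qq_self (e : ℕ) : lam e (qq e : ZMod (md e)) = beta e := by
  rw [lam_nat, Nat.mod_eq_of_lt (qq_lt e)]
  have := pp_pos e
  have h : ¬ qq e = pp e := by unfold qq; omega
  simp [h]

theorem lam_small (e j : ℕ) (h : j % md e < pp e) : lam e (j : ZMod (md e)) = 0 := by
  rw [lam_nat]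
  have h1 : ¬ j % md e = pp e := by omega
  have h2 : ¬ j % md e = qq e := by unfold qq; omega
  simp [h1, h2]

theorem lam_pp_ne {e e' : ℕ} (h : e' ≠ e) : lam e (pp e' : ZMod (md e)) = 0 := by
  apply lam_small
  rcases pp_cases h with h | h
  · rw [Nat.mod_eq_zero_of_dvd h]; exact pp_pos e
  · have h1 := Nat.le_of_dvd (pp_pos e) h
    have h2 := pp_lt e'
    have h3 := Nat.mod_le (pp e') (md e)
    omega

theorem lam_qq_ne {e e' : ℕ} (h : e' ≠ e) : lam e (qq e' : ZMod (md e)) = 0 := by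
  apply lam_small
  rcases pp_cases h with h | h
  · rw [Nat.mod_eq_zero_of_dvd (by unfold qq; exact Dvd.dvd.mul_left h 2)]; exact pp_pos e
  · have h1 := Nat.le_of_dvd (pp_pos e) h
    have h2 := qq_lt e'
    have h3 := Nat.mod_le (qq e') (md e)
    omega

/- the simulation -/

abbrev St : Type := ℕ × (ℕ × ℕ) × (ℕ × ℕ) × (ℕ × ℕ)

def ind (a b : ℕ) : ℕ := if a = b then 1 else 0

def isL (i : Fin 3) (s : Bool) (l : Fin 3 × Bool) : ℕ := if l = (i, s) then 1 else 0

def stepN (e : ℕ) (l : Fin 3 × Bool) (s : St) : St :=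
  (s.1 + isL 0 true l + isL 0 false l * (md e - 1),
   (s.2.1.1 + isL 1 true l * ind (s.1 % md e) 0, s.2.1.2 + isL 1 false l * ind (s.1 % md e) 0),
   (s.2.2.1.1 + ind (s.1 % md e) (pp e) * (isL 2 true l * s.2.1.1 + isL 2 false l * s.2.1.2),
    s.2.2.1.2 + ind (s.1 % md e) (pp e) * (isL 2 true l * s.2.1.2 + isL 2 false l * s.2.1.1)),
   (s.2.2.2.1 + ind (s.1 % md e) (qq e) * (isL 2 true l * s.2.1.1 + isL 2 false l * s.2.1.2),
    s.2.2.2.2 + ind (s.1 % md e) (qq e) * (isL 2 true l * s.2.1.2 + isL 2 false l * s.2.1.1)))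

noncomputable def val (e : ℕ) (y0 : ℤ) (s : St) : Pt (md e) ℤ :=
  ((s.1 : ZMod (md e)), (s.2.1.1 : ℤ) - s.2.1.2,
    y0 + alpha e * ((s.2.2.1.1 : ℤ) - s.2.2.1.2) + beta e * ((s.2.2.2.1 : ℤ) - s.2.2.2.2))

theorem cast_md_sub_one (e : ℕ) : ((md e - 1 : ℕ) : ZMod (md e)) = -1 := by
  have h : 1 ≤ md e := by have := pp_lt e; omega
  rw [Nat.cast_sub h]
  simp

theorem cast_eq_zero_iff (e j : ℕ) : ((j : ZMod (md e)) = 0) ↔ j % md e = 0 := by
  have := cast_eq_iff e j 0 (by have := pp_lt e; omega)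
  simpa using this

theorem step_val (e : ℕ) (y0 : ℤ) (l : Fin 3 × Bool) (s : St) :
    step (lam e) l (val e y0 s) = val e y0 (stepN e l s) := by
  obtain ⟨k, ⟨x1, x2⟩, ⟨y1, y2⟩, ⟨z1, z2⟩⟩ := s
  rcases letter_cases l with h | h | h | h | h | h <;> subst h
  · simp [step_0t, val, stepN, isL]
  · simp [step_0f, val, stepN, isL, cast_md_sub_one, sub_eq_add_neg]
  · by_cases h : k % md e = 0
    · simp [step_1t, val, stepN, isL, ind, cast_eq_zero_iff, h]; ring
    · simp [step_1t, val, stepN, isL, ind, cast_eq_zero_iff, h]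
  · by_cases h : k % md e = 0
    · simp [step_1f, val, stepN, isL, ind, cast_eq_zero_iff, h]; ring
    · simp [step_1f, val, stepN, isL, ind, cast_eq_zero_iff, h]
  · simp only [step_2t, val, stepN, lam_nat, ind]
    split_ifs <;> simp [isL] <;> ring
  · simp only [step_2f, val, stepN, lam_nat, ind]
    split_ifs <;> simp [isL] <;> ring

def sim (e : ℕ) (w : List (Fin 3 × Bool)) (s : St) : St := w.foldr (stepN e) s

theorem rho_val (e : ℕ) (y0 : ℤ) (w : List (Fin 3 × Bool)) (s : St) :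
    rho (lam e) (FreeGroup.mk w) (val e y0 s) = val e y0 (sim e w s) := by
  rw [rho_mk]
  unfold sim
  induction w with
  | nil => rfl
  | cons l w ih => simp only [List.foldr_cons, ih, step_val]

/-- a stage-s witness that alpha * (y1 - y2) + beta * (z1 - z2) is not zero -/
def NZ (e s : ℕ) (y z : ℕ × ℕ) : Prop :=
  (att e (s + 1) = true ∧ att e s = false ∧ (s + 1) * y.1 + z.1 ≠ (s + 1) * y.2 + z.2) ∨
  (att e s = false ∧ y.1 ≠ y.2 ∧ z.1 ≤ s ∧ z.2 ≤ s)

theorem NZ_iff (e : ℕ) (y z : ℕ × ℕ) :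
    (∃ s, NZ e s y z) ↔
      (alpha e : ℤ) * ((y.1 : ℤ) - y.2) + beta e * ((z.1 : ℤ) - z.2) ≠ 0 := by
  classical
  obtain ⟨y1, y2⟩ := y
  obtain ⟨z1, z2⟩ := z
  by_cases h : ∃ s, att e s = true
  · have ha : alpha e = Nat.find h := by simp [alpha, h]
    have hb : beta e = 1 := by simp [beta, h]
    have hs := Nat.find_spec h
    have hmin : ∀ s, att e s = false → s < Nat.find h := by
      intro s h0
      by_contra hc
      have := att_mono (not_lt.1 hc) hs
      simp [this] at h0
    have hmin' : ∀ s, s < Nat.find h → att e s = false := by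
      intro s h0
      have := Nat.find_min h h0
      simpa using this
    have hpos : 0 < Nat.find h := hmin 0 (att_zero e)
    rw [ha, hb]
    generalize Nat.find h = n at *
    constructor
    · rintro ⟨s, ⟨h1, h2, h3⟩ | ⟨h1, h2, h3, h4⟩⟩
      · have e1 : n = s + 1 := by
          have := hmin s h2
          by_contra hc
          have := hmin' (s + 1) (by omega)
          simp [this] at h1
        subst e1
        intro hc
        apply h3
        simp only
        zify
        push_cast at hc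
        linarith
      · have := hmin s h1
        simp only at h2 h3 h4 ⊢
        intro hc
        have hy : (y1 : ℤ) - y2 ≥ 1 ∨ (y1 : ℤ) - y2 ≤ -1 := by omega
        have hn : (s : ℤ) < n := by exact_mod_cast this
        have h3' : (z1 : ℤ) ≤ s := by exact_mod_cast h3
        have h4' : (z2 : ℤ) ≤ s := by exact_mod_cast h4
        have hz1 : (0 : ℤ) ≤ z1 := by positivity
        have hz2 : (0 : ℤ) ≤ z2 := by positivity
        have hs0 : (0 : ℤ) ≤ s := by positivity
        push_cast at hc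
        rcases hy with hy | hy <;> nlinarith
    · intro hc
      refine ⟨n - 1, Or.inl ⟨?_, hmin' _ (by omega), ?_⟩⟩
      · rw [Nat.sub_add_cancel hpos]; exact hs
      · rw [Nat.sub_add_cancel hpos]
        intro h3
        apply hc
        simp only at h3 ⊢
        zify at h3
        push_cast
        linarith
  · have ha : alpha e = 1 := by simp only [alpha, h, dite_false]
    have hb : beta e = 0 := by simp only [beta, h, if_false]
    have hall : ∀ s, att e s = false := by
      intro s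
      by_contra hc
      exact h ⟨s, by simpa using hc⟩
    rw [ha, hb]
    constructor
    · rintro ⟨s, ⟨h1, _, _⟩ | ⟨_, h2, _, _⟩⟩
      · simp [hall] at h1
      · simp only at h2 ⊢
        omega
    · intro hc
      refine ⟨z1 + z2, Or.inr ⟨hall _, ?_, by simp, by simp⟩⟩
      simp only at hc ⊢
      omega

/-- the witness predicate for a word acting nontrivially -/
def Wit (w : List (Fin 3 × Bool)) (a : ℕ × ℕ × ℕ × ℕ × ℕ) : Prop :=
  (sim a.1 w (a.2.1, (a.2.2.1, a.2.2.2.1), (0, 0), (0, 0))).1 % md a.1 ≠ a.2.1 % md a.1 ∨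
  (sim a.1 w (a.2.1, (a.2.2.1, a.2.2.2.1), (0, 0), (0, 0))).2.1.1 + a.2.2.2.1 ≠
    (sim a.1 w (a.2.1, (a.2.2.1, a.2.2.2.1), (0, 0), (0, 0))).2.1.2 + a.2.2.1 ∨
  NZ a.1 a.2.2.2.2 (sim a.1 w (a.2.1, (a.2.2.1, a.2.2.2.1), (0, 0), (0, 0))).2.2.1
    (sim a.1 w (a.2.1, (a.2.2.1, a.2.2.2.1), (0, 0), (0, 0))).2.2.2

theorem val_ne_iff (e : ℕ) (y0 : ℤ) (k x1 x2 : ℕ) (s : St) :
    val e y0 s ≠ val e y0 (k, (x1, x2), (0, 0), (0, 0)) ↔
      (s.1 % md e ≠ k % md e ∨ s.2.1.1 + x2 ≠ s.2.1.2 + x1 ∨ ∃ n, NZ e n s.2.2.1 s.2.2.2) := by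
  rw [NZ_iff]
  unfold val
  simp only [ne_eq, Prod.mk.injEq, ZMod.natCast_eq_natCast_iff']
  have h1 : ((s.2.1.1 : ℤ) - s.2.1.2 = (x1 : ℤ) - x2) ↔ s.2.1.1 + x2 = s.2.1.2 + x1 := by omega
  have h2 : (y0 + alpha e * ((s.2.2.1.1 : ℤ) - s.2.2.1.2) +
      beta e * ((s.2.2.2.1 : ℤ) - s.2.2.2.2) =
      y0 + alpha e * (((0 : ℕ) : ℤ) - (0 : ℕ)) + beta e * (((0 : ℕ) : ℤ) - (0 : ℕ))) ↔
      (alpha e : ℤ) * ((s.2.2.1.1 : ℤ) - s.2.2.1.2) +
        beta e * ((s.2.2.2.1 : ℤ) - s.2.2.2.2) = 0 := by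
    constructor <;> intro h <;> push_cast at * <;> linarith
  rw [h1, h2]
  tauto

theorem wit_iff (w : List (Fin 3 × Bool)) :
    (∃ a, Wit w a) ↔ ∃ e, rho (lam e) (FreeGroup.mk w) ≠ 1 := by
  constructor
  · rintro ⟨⟨e, k, x1, x2, s⟩, h⟩
    refine ⟨e, fun h1 => ?_⟩
    have h2 := rho_val e 0 w (k, (x1, x2), (0, 0), (0, 0))
    rw [h1, Equiv.Perm.one_apply] at h2
    have h3 := (val_ne_iff e 0 k x1 x2 (sim e w (k, (x1, x2), (0, 0), (0, 0)))).2 (by
      rcases h with h | h | h
      · exact Or.inl h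
      · exact Or.inr (Or.inl h)
      · exact Or.inr (Or.inr ⟨s, h⟩))
    exact h3 h2.symm
  · rintro ⟨e, h⟩
    obtain ⟨⟨k, x, y⟩, hz⟩ : ∃ z, rho (lam e) (FreeGroup.mk w) z ≠ z := by
      by_contra hc
      push Not at hc
      exact h (Equiv.ext hc)
    have hv : (k, x, y) = val e y (k.val, (x.toNat, (-x).toNat), (0, 0), (0, 0)) := by
      unfold val
      simp
    rw [hv, rho_val] at hz
    rcases (val_ne_iff e y _ _ _ _).1 hz with h | h | ⟨n, h⟩
    · exact ⟨(e, k.val, x.toNat, (-x).toNat, 0), Or.inl h⟩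
    · exact ⟨(e, k.val, x.toNat, (-x).toNat, 0), Or.inr (Or.inl h)⟩
    · exact ⟨(e, k.val, x.toNat, (-x).toNat, n), Or.inr (Or.inr h)⟩

end Pool.Agent.Lib.MP_07717f_lc
end

-- part Pool.Agent.Lib.MP_07717f_lc.Comp
section

/-
The witness predicate is primitive recursive, so acting nontrivially is a c.e. property of words.
-/

set_option autoImplicit false

namespace Pool.Agent.Lib.MP_07717f_lc

open Nat.Partrec (Code)
open Nat.Partrec.Code

theorem re_exists_nat {α : Type} [Primcodable α] {P : α → ℕ → Prop}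
    (h : ComputablePred fun a : α × ℕ => P a.1 a.2) : REPred fun a => ∃ n, P a n := by
  classical
  have h1 : Partrec (fun x => Nat.rfind fun n => Part.some (decide (P x n))) :=
    Partrec.rfind h.decide.partrec
  refine h1.dom_re.of_eq fun a => Nat.rfind_dom.trans ?_
  constructor
  · rintro ⟨n, hn, _⟩
    exact ⟨n, by simpa using hn⟩
  · rintro ⟨n, hn⟩
    exact ⟨n, by simpa using hn, fun _ => trivial⟩

theorem re_exists {α β : Type} [Primcodable α] [Denumerable β] {P : α → β → Prop}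
    (h : ComputablePred fun a : α × β => P a.1 a.2) : REPred fun a => ∃ b, P a b := by
  classical
  have h1 : ComputablePred fun a : α × ℕ => P a.1 (Denumerable.ofNat β a.2) :=
    Computable.computablePred
      (h.decide.comp (Computable.fst.pair ((Primrec.ofNat β).to_comp.comp Computable.snd)))
  refine (re_exists_nat (P := fun a n => P a (Denumerable.ofNat β n)) h1).of_eq fun a =>
    ⟨fun ⟨_, hn⟩ => ⟨_, hn⟩, fun ⟨b, hb⟩ => ?_⟩
  exact ⟨Encodable.encode b, by simpa using hb⟩

theorem prim_pp : Primrec pp := by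
  have h : Primrec₂ ((· ^ ·) : ℕ → ℕ → ℕ) := Primrec₂.unpaired'.1 Nat.Primrec.pow
  exact h.comp (Primrec.const 4) Primrec.id

theorem prim_qq : Primrec qq := Primrec.nat_mul.comp (Primrec.const 2) prim_pp
theorem prim_md : Primrec md := Primrec.nat_mul.comp (Primrec.const 4) prim_pp

theorem prim_ind : Primrec₂ ind :=
  Primrec.ite (Primrec.eq.comp Primrec.fst Primrec.snd) (Primrec.const 1) (Primrec.const 0)

theorem prim_isL (i : Fin 3) (s : Bool) : Primrec (isL i s) := Primrec.dom_finite _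

theorem prim_att : Primrec₂ att :=
  Primrec.option_isSome.comp (primrec_evaln.comp
    ((Primrec.snd.pair ((Primrec.ofNat Code).comp Primrec.fst)).pair (Primrec.const 0)))

theorem prim_stepN : Primrec fun a : ℕ × (Fin 3 × Bool) × St => stepN a.1 a.2.1 a.2.2 := by
  have he : Primrec fun a : ℕ × (Fin 3 × Bool) × St => a.1 := Primrec.fst
  have hl : Primrec fun a : ℕ × (Fin 3 × Bool) × St => a.2.1 := Primrec.fst.comp Primrec.snd
  have hs : Primrec fun a : ℕ × (Fin 3 × Bool) × St => a.2.2 := Primrec.snd.comp Primrec.snd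
  have hk : Primrec fun a : ℕ × (Fin 3 × Bool) × St => a.2.2.1 := Primrec.fst.comp hs
  have hs2 : Primrec fun a : ℕ × (Fin 3 × Bool) × St => a.2.2.2 := Primrec.snd.comp hs
  have hx : Primrec fun a : ℕ × (Fin 3 × Bool) × St => a.2.2.2.1 := Primrec.fst.comp hs2
  have hs3 : Primrec fun a : ℕ × (Fin 3 × Bool) × St => a.2.2.2.2 := Primrec.snd.comp hs2
  have hy : Primrec fun a : ℕ × (Fin 3 × Bool) × St => a.2.2.2.2.1 := Primrec.fst.comp hs3
  have hz : Primrec fun a : ℕ × (Fin 3 × Bool) × St => a.2.2.2.2.2 := Primrec.snd.comp hs3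
  have hx1 := Primrec.fst.comp hx
  have hx2 := Primrec.snd.comp hx
  have hy1 := Primrec.fst.comp hy
  have hy2 := Primrec.snd.comp hy
  have hz1 := Primrec.fst.comp hz
  have hz2 := Primrec.snd.comp hz
  have hm := prim_md.comp he
  have hkm := Primrec.nat_mod.comp hk hm
  have hi0 := prim_ind.comp hkm (Primrec.const 0)
  have hip := prim_ind.comp hkm (prim_pp.comp he)
  have hiq := prim_ind.comp hkm (prim_qq.comp he)
  have hL := fun i s => (prim_isL i s).comp hl
  have hu := Primrec.nat_add.comp (Primrec.nat_mul.comp (hL 2 true) hx1)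
    (Primrec.nat_mul.comp (hL 2 false) hx2)
  have hv := Primrec.nat_add.comp (Primrec.nat_mul.comp (hL 2 true) hx2)
    (Primrec.nat_mul.comp (hL 2 false) hx1)
  exact (Primrec.nat_add.comp (Primrec.nat_add.comp hk (hL 0 true))
      (Primrec.nat_mul.comp (hL 0 false) (Primrec.nat_sub.comp hm (Primrec.const 1)))).pair
    (((Primrec.nat_add.comp hx1 (Primrec.nat_mul.comp (hL 1 true) hi0)).pair
      (Primrec.nat_add.comp hx2 (Primrec.nat_mul.comp (hL 1 false) hi0))).pair
    (((Primrec.nat_add.comp hy1 (Primrec.nat_mul.comp hip hu)).pair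
      (Primrec.nat_add.comp hy2 (Primrec.nat_mul.comp hip hv))).pair
    ((Primrec.nat_add.comp hz1 (Primrec.nat_mul.comp hiq hu)).pair
      (Primrec.nat_add.comp hz2 (Primrec.nat_mul.comp hiq hv)))))

theorem prim_sim : Primrec fun a : ℕ × List (Fin 3 × Bool) × St => sim a.1 a.2.1 a.2.2 := by
  have h := Primrec.list_foldr (α := ℕ × List (Fin 3 × Bool) × St) (f := fun a => a.2.1)
    (g := fun a => a.2.2) (h := fun a b => stepN a.1 b.1 b.2)
    (Primrec.fst.comp Primrec.snd) (Primrec.snd.comp Primrec.snd)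
    (prim_stepN.comp ((Primrec.fst.comp Primrec.fst).pair Primrec.snd)).to₂
  exact h

theorem prim_NZ :
    PrimrecPred fun a : (ℕ × ℕ) × (ℕ × ℕ) × (ℕ × ℕ) => NZ a.1.1 a.1.2 a.2.1 a.2.2 := by
  have he : Primrec fun a : (ℕ × ℕ) × (ℕ × ℕ) × (ℕ × ℕ) => a.1.1 := Primrec.fst.comp Primrec.fst
  have hs : Primrec fun a : (ℕ × ℕ) × (ℕ × ℕ) × (ℕ × ℕ) => a.1.2 := Primrec.snd.comp Primrec.fst
  have hy : Primrec fun a : (ℕ × ℕ) × (ℕ × ℕ) × (ℕ × ℕ) => a.2.1 := Primrec.fst.comp Primrec.snd
  have hz : Primrec fun a : (ℕ × ℕ) × (ℕ × ℕ) × (ℕ × ℕ) => a.2.2 := Primrec.snd.comp Primrec.snd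
  have hy1 := Primrec.fst.comp hy
  have hy2 := Primrec.snd.comp hy
  have hz1 := Primrec.fst.comp hz
  have hz2 := Primrec.snd.comp hz
  have hs1 := Primrec.nat_add.comp hs (Primrec.const 1)
  have ha1 := Primrec.eq.comp (prim_att.comp he hs1) (Primrec.const true)
  have ha0 := Primrec.eq.comp (prim_att.comp he hs) (Primrec.const false)
  exact (ha1.and (ha0.and (Primrec.eq.comp
      (Primrec.nat_add.comp (Primrec.nat_mul.comp hs1 hy1) hz1)
      (Primrec.nat_add.comp (Primrec.nat_mul.comp hs1 hy2) hz2)).not)).or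
    (ha0.and ((Primrec.eq.comp hy1 hy2).not.and
      ((Primrec.nat_le.comp hz1 hs).and (Primrec.nat_le.comp hz2 hs))))

theorem prim_wit :
    PrimrecPred fun b : List (Fin 3 × Bool) × (ℕ × ℕ × ℕ × ℕ × ℕ) => Wit b.1 b.2 := by
  have hw : Primrec fun b : List (Fin 3 × Bool) × (ℕ × ℕ × ℕ × ℕ × ℕ) => b.1 := Primrec.fst
  have ha : Primrec fun b : List (Fin 3 × Bool) × (ℕ × ℕ × ℕ × ℕ × ℕ) => b.2 := Primrec.snd
  have he := Primrec.fst.comp ha
  have ha2 := Primrec.snd.comp ha
  have hk := Primrec.fst.comp ha2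
  have ha3 := Primrec.snd.comp ha2
  have hx1 := Primrec.fst.comp ha3
  have ha4 := Primrec.snd.comp ha3
  have hx2 := Primrec.fst.comp ha4
  have hs := Primrec.snd.comp ha4
  have hS : Primrec fun b : List (Fin 3 × Bool) × (ℕ × ℕ × ℕ × ℕ × ℕ) =>
      sim b.2.1 b.1 (b.2.2.1, (b.2.2.2.1, b.2.2.2.2.1), (0, 0), (0, 0)) :=
    prim_sim.comp (he.pair (hw.pair (hk.pair ((hx1.pair hx2).pair
      (Primrec.const ((0, 0), (0, 0)))))))
  have hS1 := Primrec.fst.comp hS
  have hS2 := Primrec.snd.comp hS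
  have hSx := Primrec.fst.comp hS2
  have hS3 := Primrec.snd.comp hS2
  have hm := prim_md.comp he
  exact (Primrec.eq.comp (Primrec.nat_mod.comp hS1 hm) (Primrec.nat_mod.comp hk hm)).not.or
    ((Primrec.eq.comp (Primrec.nat_add.comp (Primrec.fst.comp hSx) hx2)
      (Primrec.nat_add.comp (Primrec.snd.comp hSx) hx1)).not.or
    (prim_NZ.comp ((he.pair hs).pair hS3)))

theorem re_nontrivial :
    REPred fun w : List (Fin 3 × Bool) => ∃ e, rho (lam e) (FreeGroup.mk w) ≠ 1 :=
  (re_exists (P := Wit) prim_wit.computablePred).of_eq wit_iff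

theorem computable_iterate {T : ℕ → ℕ} (hT : Computable T) :
    Computable₂ fun j x : ℕ => T^[j] x := by
  have h := Computable.nat_rec (α := ℕ × ℕ) (σ := ℕ) (f := fun a => a.1) (g := fun a => a.2)
    (h := fun _ b => T b.2) Computable.fst Computable.snd
    (hT.comp (Computable.snd.comp Computable.snd)).to₂
  refine Computable₂.mk (h.of_eq fun a => ?_)
  obtain ⟨j, x⟩ := a
  simp only
  induction j with
  | zero => rfl
  | succ j ih => rw [Function.iterate_succ_apply', ← ih]

end Pool.Agent.Lib.MP_07717f_lc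
end

-- part Pool.Agent.Lib.MP_07717f_lc.Main
section

/-
The group: the free group on three letters modulo the common kernel of all the actions.
-/

set_option autoImplicit false

namespace Pool.Agent.Lib.MP_07717f_lc

open Nat.Partrec (Code)
open Nat.Partrec.Code

noncomputable def NN : Subgroup (FreeGroup (Fin 3)) := ⨅ e, (rho (lam e)).ker

theorem mem_NN {g : FreeGroup (Fin 3)} : g ∈ NN ↔ ∀ e, rho (lam e) g = 1 := by
  simp [NN, Subgroup.mem_iInf]

instance NN_normal : NN.Normal := Subgroup.normal_iInf_normal fun _ => inferInstance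

abbrev GG : Type := FreeGroup (Fin 3) ⧸ NN

noncomputable def proj : FreeGroup (Fin 3) →* GG := QuotientGroup.mk' NN

theorem proj_surj : Function.Surjective proj := QuotientGroup.mk'_surjective NN

theorem proj_eq_one {g : FreeGroup (Fin 3)} : proj g = 1 ↔ ∀ e, rho (lam e) g = 1 := by
  rw [← mem_NN]
  exact QuotientGroup.eq_one_iff g

theorem proj_eq {g h : FreeGroup (Fin 3)} (H : ∀ e, rho (lam e) g = rho (lam e) h) :
    proj g = proj h := by
  have : proj (g * h⁻¹) = 1 := proj_eq_one.2 fun e => by simp [H e]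
  rw [map_mul, map_inv] at this
  exact mul_inv_eq_one.1 this

theorem GG_fg : Group.FG GG := Group.fg_of_surjective proj_surj

theorem GG_re : REPred fun w : List (Fin 3 × Bool) => proj (FreeGroup.mk w) ≠ 1 :=
  re_nontrivial.of_eq fun w => by rw [ne_eq, proj_eq_one]; push Not; rfl

theorem exists_mod {m : ℕ} {z z' : Pt m ℤ} (h : z ≠ z') :
    ∃ r : ℕ, mapPt (Int.castRingHom (ZMod (r + 1))) z ≠
      mapPt (Int.castRingHom (ZMod (r + 1))) z' := by
  obtain ⟨k, x, y⟩ := z
  obtain ⟨k', x', y'⟩ := z'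
  refine ⟨(x - x').natAbs + (y - y').natAbs, fun hc => h ?_⟩
  simp only [mapPt, Prod.mk.injEq, eq_intCast] at hc
  obtain ⟨h1, h2, h3⟩ := hc
  rw [ZMod.intCast_eq_intCast_iff_dvd_sub] at h2 h3
  have e2 : x' - x = 0 := Int.eq_zero_of_dvd_of_natAbs_lt_natAbs h2 (by omega)
  have e3 : y' - y = 0 := Int.eq_zero_of_dvd_of_natAbs_lt_natAbs h3 (by omega)
  refine Prod.ext h1 (Prod.ext ?_ ?_)
  · simp only; omega
  · simp only; omega

theorem mapPt_surj (m r : ℕ) :
    Function.Surjective (mapPt (m := m) (Int.castRingHom (ZMod (r + 1)))) := by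
  rintro ⟨k, x, y⟩
  obtain ⟨x', rfl⟩ := ZMod.intCast_surjective x
  obtain ⟨y', rfl⟩ := ZMod.intCast_surjective y
  exact ⟨(k, x', y'), rfl⟩

theorem GG_rf (g : GG) (hg : g ≠ 1) : ∃ H : Subgroup GG, H.index ≠ 0 ∧ g ∉ H := by
  obtain ⟨w, rfl⟩ := proj_surj g
  rw [ne_eq, proj_eq_one] at hg
  push Not at hg
  obtain ⟨e, he⟩ := hg
  obtain ⟨z, hz⟩ : ∃ z, rho (lam e) w z ≠ z := by
    by_contra hc
    push Not at hc
    exact he (Equiv.ext hc)
  obtain ⟨r, hr⟩ := exists_mod hz
  let φ := Int.castRingHom (ZMod (r + 1))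
  let ρ := rho (fun k => φ (lam e k))
  have hker : ∀ x ∈ NN, ρ x = 1 := by
    intro x hx
    refine Equiv.ext fun u => ?_
    obtain ⟨v, rfl⟩ := mapPt_surj (md e) r u
    have := mapPt_rho φ (lam e) x v
    rw [mem_NN.1 hx e] at this
    exact this.symm
  let f : GG →* Equiv.Perm (Pt (md e) (ZMod (r + 1))) := QuotientGroup.lift NN ρ hker
  refine ⟨f.ker, (Subgroup.finiteIndex_ker f).index_ne_zero, fun hm => hr ?_⟩
  have h1 : ρ w = 1 := hm
  have := mapPt_rho φ (lam e) w z
  rw [this]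
  show ρ w _ = _
  rw [h1]
  rfl

theorem comm_qq_eq_one {e : ℕ} (h : ¬ ∃ s, att e s = true) : proj (comm (qq e)) = 1 := by
  refine proj_eq_one.2 fun e' => Equiv.ext fun z => ?_
  rw [rho_comm]
  have : lam e' (qq e : ZMod (md e')) = 0 := by
    by_cases he : e = e'
    · subst he
      rw [lam_qq_self]
      simp only [beta, h, if_false, Nat.cast_zero]
    · exact lam_qq_ne he
  simp [this]

theorem comm_pp_ne_one {e : ℕ} (h : ¬ ∃ s, att e s = true) : proj (comm (pp e)) ≠ 1 := by
  intro hc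
  have h1 := proj_eq_one.1 hc e
  have h2 := rho_comm (lam e) (pp e) (0, 0, 0)
  rw [h1, lam_pp_self] at h2
  have ha : alpha e = 1 := by simp only [alpha, h, dite_false]
  simp [ha] at h2

theorem comm_pp_eq_pow {e : ℕ} (h : ∃ s, att e s = true) :
    proj (comm (pp e)) = proj (comm (qq e)) ^ alpha e := by
  rw [← map_pow]
  refine proj_eq fun e' => Equiv.ext fun z => ?_
  rw [rho_comm, rho_comm_pow]
  by_cases he : e = e'
  · subst he
    rw [lam_pp_self, lam_qq_self]
    have hb : beta e = 1 := by simp only [beta, h, if_true]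
    by_cases hz : z.1 = 0 <;> simp [hz, hb]
  · rw [lam_pp_ne he, lam_qq_ne he]
    simp

theorem GG_not_embed : ¬ ∃ f : GG →* Equiv.Perm ℕ, Function.Injective f ∧
    ∀ g : GG, Computable (⇑(f g) : ℕ → ℕ) := by
  classical
  rintro ⟨f, hinj, hc⟩
  have hT := computable_iterate (hc (proj tt))
  have hT' := computable_iterate (hc (proj tt⁻¹))
  have hcomm : Computable₂ fun j x : ℕ => f (proj (comm j)) x := by
    have h0 : Computable fun a : ℕ × ℕ => a.1 := Computable.fst
    have h1 := hT.comp h0 Computable.snd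
    have h2 := hT'.comp h0 ((hc (proj bb⁻¹)).comp h1)
    have h3 := hT.comp h0 ((hc (proj aa⁻¹)).comp h2)
    have h4 := hT'.comp h0 ((hc (proj bb)).comp h3)
    refine Computable₂.mk (((hc (proj aa)).comp h4).of_eq fun a => ?_)
    simp only [comm, map_mul, map_pow, Equiv.Perm.mul_apply, Equiv.Perm.coe_pow]
  have hW : Computable fun a : Code × ℕ => f (proj (comm (pp (Encodable.encode a.1)))) a.2 :=
    hcomm.comp (prim_pp.to_comp.comp (Computable.encode.comp Computable.fst)) Computable.snd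
  have hU : Computable fun a : Code × ℕ => f (proj (comm (qq (Encodable.encode a.1)))) a.2 :=
    hcomm.comp (prim_qq.to_comp.comp (Computable.encode.comp Computable.fst)) Computable.snd
  have heq : Computable₂ fun a b : ℕ => decide (a = b) := Primrec.eq.decide.to_comp
  have hP : ComputablePred fun a : Code × ℕ =>
      f (proj (comm (pp (Encodable.encode a.1)))) a.2 ≠ a.2 ∧
        f (proj (comm (qq (Encodable.encode a.1)))) a.2 = a.2 := by
    refine Computable.computablePred ((Primrec.and.to_comp.comp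
      (Primrec.not.to_comp.comp (heq.comp hW Computable.snd))
      (heq.comp hU Computable.snd)).of_eq fun a => ?_)
    simp
  refine ComputablePred.halting_problem_not_re 0 ((re_exists_nat
    (P := fun (c : Code) x => f (proj (comm (pp (Encodable.encode c)))) x ≠ x ∧
        f (proj (comm (qq (Encodable.encode c)))) x = x) hP).of_eq fun c => ?_)
  rw [← att_iff]
  constructor
  · rintro ⟨x, h1, h2⟩ h
    apply h1
    rw [comm_pp_eq_pow h, map_pow]
    exact Equiv.Perm.pow_apply_eq_self_of_apply_eq_self h2 _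
  · intro h
    have h1 : f (proj (comm (pp (Encodable.encode c)))) ≠ 1 := fun h0 =>
      comm_pp_ne_one h (hinj (by rw [h0, map_one]))
    obtain ⟨x, hx⟩ : ∃ x, f (proj (comm (pp (Encodable.encode c)))) x ≠ x := by
      by_contra hc
      push Not at hc
      exact h1 (Equiv.ext hc)
    exact ⟨x, hx, by rw [comm_qq_eq_one h, map_one]; rfl⟩

end Pool.Agent.Lib.MP_07717f_lc
end
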